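import Pool.Agent.TH940.WD.G
import Pool.Agent.TH940.WD.H

/-!
# Waring's problem and sets of positive lower density

Let every residue class be a sum of `t` k-th powers (this holds for `t = 4k`).  For all sets
`A`, `B` of positive lower density, `A` plus `t + 1` k-th powers has density one, and every large
integer lies in `A + B` plus `t + 1` k-th powers.  The number `t + 1` is sharp up to one.  In
particular `G(k) ≤ 2 D(k) + 4k + 1`, where `D(k)` is the least `s` for which the sums of `s` k-th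
powers have positive lower density; with `O(k)` further summands it is enough that for each large
`Z` the sums of `s` k-th powers have a positive proportion in one interval of length `Z ^ θ` below
`Z`.  The densities may depend on `k`.
-/

set_option autoImplicit false

namespace Pool.Agent.Results.MP_570bef_nt.LowerDensity

open Filter Pointwise

open Classical in
/-- The number of elements of `A` below `n`. -/
noncomputable def count (A : Set ℕ) (n : ℕ) : ℕ := ((Finset.range n).filter (fun a => a ∈ A)).card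

/-- `A` has positive lower asymptotic density. -/
def PosLowerDensity (A : Set ℕ) : Prop := ∃ δ : ℝ, 0 < δ ∧ ∀ᶠ n : ℕ in atTop, δ * n ≤ count A n

/-- `A` has asymptotic density one. -/
def DensityOne (A : Set ℕ) : Prop :=
  ∀ ε : ℝ, 0 < ε → ∀ᶠ n : ℕ in atTop, (1 - ε) * n ≤ count A n

/-- The sums of `s` k-th powers of natural numbers (`0` allowed). -/
def PowerSums (k s : ℕ) : Set ℕ := {n | ∃ x : Fin s → ℕ, n = ∑ i, x i ^ k}

/-- For some `δ > 0` and every large `Z` there is an interval `[u, u + H)` inside `[0, Z)`, of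
length `H ≥ Z ^ θ`, that contains at least `δ H` elements of `S`. -/
def LocallyDense (S : Set ℕ) (θ : ℝ) : Prop :=
  ∃ δ : ℝ, 0 < δ ∧ ∀ᶠ Z : ℕ in atTop, ∃ u H : ℕ, (Z : ℝ) ^ θ ≤ H ∧ u + H ≤ Z ∧
    δ * H ≤ (count S (u + H) : ℝ) - count S u

/-- Every residue class modulo every `q ≥ 1` contains a sum of `t` k-th powers. -/
def Local (k t : ℕ) : Prop := ∀ q : ℕ, 1 ≤ q → ∀ r : ℕ, ∃ m ∈ PowerSums k t, m ≡ r [MOD q]

lemma count_eq (A : Set ℕ) (n : ℕ) : count A n = Pool.Agent.TH940.WD.cnt A n := rfl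

lemma sh_eq (A : Set ℕ) (k t : ℕ) : Pool.Agent.TH940.WD.Sh A k t = A + PowerSums k t := by
  ext n
  rw [Set.mem_add]
  constructor
  · rintro ⟨a, ha, x, rfl⟩
    exact ⟨a, ha, _, ⟨x, rfl⟩, rfl⟩
  · rintro ⟨a, ha, m, ⟨x, rfl⟩, rfl⟩
    exact ⟨a, ha, x, rfl⟩

lemma loc_of (k t : ℕ) (h : Local k t) (Q : ℕ) (hQ : 1 ≤ Q) (N : ℕ) :
    Pool.Agent.TH882.WM.Loc k Q t N := by
  obtain ⟨m, ⟨x, rfl⟩, hm⟩ := h Q hQ N
  exact ⟨x, hm.symm⟩

lemma local_four (k : ℕ) (hk : 1 ≤ k) : Local k (4 * k) := by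
  intro q hq r
  obtain ⟨x, hx⟩ := Pool.Agent.TH882.WM.loc_four hk hq le_rfl r
  exact ⟨_, ⟨x, rfl⟩, hx.symm⟩

lemma local_two (k : ℕ) (hk : 1 ≤ k) (h : ∀ a, 2 ≤ a → k ≠ 2 ^ a) : Local k (2 * k + 1) := by
  intro q hq r
  obtain ⟨x, hx⟩ := Pool.Agent.TH882.WM.loc_two hk hq h le_rfl r
  exact ⟨_, ⟨x, rfl⟩, hx.symm⟩

lemma pos_of_local (k t : ℕ) (h : Local k t) : 1 ≤ t := by
  rcases Nat.eq_zero_or_pos t with rfl | h0
  · obtain ⟨m, ⟨x, rfl⟩, hm⟩ := h 2 (by norm_num) 1
    simp [Nat.ModEq] at hm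
  · exact h0

lemma sums_add {k a b n m : ℕ} (hn : n ∈ PowerSums k a) (hm : m ∈ PowerSums k b) :
    n + m ∈ PowerSums k (a + b) := by
  obtain ⟨x, rfl⟩ := hn
  obtain ⟨y, rfl⟩ := hm
  refine ⟨Fin.append x y, ?_⟩
  rw [Fin.sum_univ_add]
  simp

lemma sums_mono {k a b n : ℕ} (hk : 1 ≤ k) (hab : a ≤ b) (hn : n ∈ PowerSums k a) :
    n ∈ PowerSums k b := by
  obtain ⟨c, rfl⟩ := Nat.exists_eq_add_of_le hab
  have h := sums_add hn (m := 0) (b := c) ⟨fun _ => 0, by simp [zero_pow (show k ≠ 0 by omega)]⟩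
  simpa using h

lemma count_compl (A : Set ℕ) (n : ℕ) : count A n + count Aᶜ n = n := by
  classical
  unfold count
  have h := Finset.card_filter_add_card_filter_not (s := Finset.range n) (fun a => a ∈ A)
  rw [Finset.card_range] at h
  convert h using 2
  congr 1
  ext a
  simp

lemma count_mono {A B : Set ℕ} (h : A ⊆ B) (n : ℕ) : count A n ≤ count B n := by
  classical
  unfold count
  apply Finset.card_le_card
  intro a ha
  rw [Finset.mem_filter] at ha ⊢
  exact ⟨ha.1, h ha.2⟩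

lemma count_not (S : Set ℕ) (n : ℕ) [DecidablePred (fun a => a ∉ S)] :
    ((Finset.range n).filter (fun a => a ∉ S)).card = count Sᶜ n := by
  unfold count
  congr 1
  ext a
  simp

lemma le_count (A : Set ℕ) (n m : ℕ) (f : ℕ → ℕ) (hf : ∀ i < m, f i < n ∧ f i ∈ A)
    (hinj : ∀ i j, f i = f j → i = j) : m ≤ count A n := by
  classical
  unfold count
  rw [← Finset.card_range m]
  apply Finset.card_le_card_of_injOn f
  · intro i hi
    rw [Finset.mem_coe, Finset.mem_range] at hi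
    rw [Finset.mem_coe, Finset.mem_filter, Finset.mem_range]
    exact hf i hi
  · intro i _ j _ hij
    exact hinj i j hij

/-- a residue class has positive lower density -/
lemma count_class (q c : ℕ) (hq : 1 ≤ q) (n : ℕ) (hn : 2 * (c + q) ≤ n) :
    1 / (4 * (q : ℝ)) * n ≤ count {m | m ≡ c [MOD q]} n := by
  have h1 : (n - c) / q ≤ count {m | m ≡ c [MOD q]} n := by
    apply le_count _ _ _ (fun i => c + q * i)
    · intro i hi
      refine ⟨?_, ?_⟩
      · have h2 : q * (i + 1) ≤ n - c := (Nat.mul_le_mul_left q hi).trans (Nat.mul_div_le _ _)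
        have h3 : q * (i + 1) = q * i + q := by ring
        show c + q * i < n
        omega
      · show c + q * i ≡ c [MOD q]
        unfold Nat.ModEq
        rw [Nat.add_mul_mod_self_left]
    · intro i j hij
      have h2 : c + q * i = c + q * j := hij
      have h3 : q * i = q * j := by omega
      exact Nat.eq_of_mul_eq_mul_left (by omega) h3
  have hq0 : (0 : ℝ) < q := by exact_mod_cast hq
  have h4 : n ≤ 4 * q * ((n - c) / q) := by
    have h5 : n - c < q * ((n - c) / q + 1) := Nat.lt_mul_div_succ _ (by omega)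
    have h6 : q * ((n - c) / q + 1) = q * ((n - c) / q) + q := by ring
    have h7 : 4 * q * ((n - c) / q) = 4 * (q * ((n - c) / q)) := by ring
    omega
  have h8 : (n : ℝ) ≤ 4 * q * ((n - c) / q : ℕ) := by exact_mod_cast h4
  have h9 : (((n - c) / q : ℕ) : ℝ) ≤ count {m | m ≡ c [MOD q]} n := by exact_mod_cast h1
  rw [one_div, inv_mul_le_iff₀ (by positivity)]
  calc (n : ℝ) ≤ 4 * q * ((n - c) / q : ℕ) := h8
    _ ≤ 4 * q * (count {m | m ≡ c [MOD q]} n : ℝ) := mul_le_mul_of_nonneg_left h9 (by positivity)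

/-- part 1, density one -/
lemma part_one (k t : ℕ) (hk : 1 ≤ k) (hl : Local k t) (A : Set ℕ) (hA : PosLowerDensity A) :
    DensityOne (A + PowerSums k (t + 1)) := by
  obtain ⟨δ, hδ, h⟩ := hA
  obtain ⟨n₀, hn₀⟩ := eventually_atTop.1 h
  intro ε hε
  obtain ⟨N₁, hN⟩ := Pool.Agent.TH940.WD.dense k t hk (pos_of_local k t hl) (loc_of k t hl) A δ hδ
    n₀ hn₀ ε hε
  filter_upwards [eventually_ge_atTop N₁] with n hn
  have h1 := hN n hn
  rw [sh_eq, count_not] at h1
  have h2 := count_compl (A + PowerSums k (t + 1)) n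
  have h4 : (count (A + PowerSums k (t + 1)) n : ℝ) + (count (A + PowerSums k (t + 1))ᶜ n : ℝ) = n := by
    exact_mod_cast h2
  linarith

/-- part 1, all large integers -/
lemma part_two (k t : ℕ) (hk : 1 ≤ k) (hl : Local k t) (A B : Set ℕ) (hA : PosLowerDensity A)
    (hB : PosLowerDensity B) : ∀ᶠ n in atTop, n ∈ A + B + PowerSums k (t + 1) := by
  obtain ⟨δ, hδ, h⟩ := hA
  obtain ⟨n₀, hn₀⟩ := eventually_atTop.1 h
  obtain ⟨β, hβ, h'⟩ := hB
  obtain ⟨m₀, hm₀⟩ := eventually_atTop.1 h'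
  obtain ⟨N₁, hN⟩ := Pool.Agent.TH940.WD.two k t hk (pos_of_local k t hl) (loc_of k t hl) A δ hδ
    n₀ hn₀ B β hβ m₀ hm₀
  filter_upwards [eventually_ge_atTop N₁] with n hn
  obtain ⟨b, hb, c, hc, rfl⟩ := hN n hn
  rw [sh_eq, Set.mem_add] at hc
  obtain ⟨a, ha, m, hm, rfl⟩ := hc
  rw [Set.mem_add]
  exact ⟨a + b, Set.add_mem_add ha hb, m, hm, by ring⟩

/-- part 2, sharpness -/
lemma part_sharp (k t : ℕ)
    (h : ∀ A : Set ℕ, PosLowerDensity A → DensityOne (A + PowerSums k t)) : Local k t := by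
  intro q hq r
  by_contra hcon
  push Not at hcon
  have hq0 : (0 : ℝ) < q := by exact_mod_cast hq
  have hA : PosLowerDensity {m | m ≡ 0 [MOD q]} := by
    refine ⟨1 / (4 * (q : ℝ)), by positivity, ?_⟩
    filter_upwards [eventually_ge_atTop (2 * (0 + q))] with n hn
    exact count_class q 0 hq n hn
  have h1 := h _ hA (1 / (8 * (q : ℝ))) (by positivity)
  obtain ⟨n, hn1, hn2, hn3⟩ := (h1.and ((eventually_ge_atTop (2 * (r + q))).and
    (eventually_ge_atTop 1))).exists
  have h2 : {m | m ≡ r [MOD q]} ⊆ ({m | m ≡ 0 [MOD q]} + PowerSums k t)ᶜ := by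
    intro m hm hm'
    rw [Set.mem_add] at hm'
    obtain ⟨a, ha, b, hb, hab⟩ := hm'
    apply hcon b hb
    have h3 : a ≡ 0 [MOD q] := ha
    have h4 : m ≡ r [MOD q] := hm
    have h5 : a + b ≡ 0 + b [MOD q] := h3.add_right b
    rw [hab, zero_add] at h5
    exact h5.symm.trans h4
  have h3 := count_mono h2 n
  have h4 := count_class q r hq n hn2
  have h5 := count_compl ({m | m ≡ 0 [MOD q]} + PowerSums k t) n
  have h6 : (count ({m | m ≡ 0 [MOD q]} + PowerSums k t) n : ℝ) +
      (count ({m | m ≡ 0 [MOD q]} + PowerSums k t)ᶜ n : ℝ) = n := by exact_mod_cast h5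
  have h7 : (count {m | m ≡ r [MOD q]} n : ℝ) ≤
      (count ({m | m ≡ 0 [MOD q]} + PowerSums k t)ᶜ n : ℝ) := by exact_mod_cast h3
  have h8 : (0 : ℝ) < n := by exact_mod_cast hn3
  have h9 : 1 / (4 * (q : ℝ)) = 2 * (1 / (8 * (q : ℝ))) := by field_simp; norm_num
  have h10 : (0 : ℝ) < 1 / (8 * (q : ℝ)) := by positivity
  rw [h9] at h4
  nlinarith

/-- Waring's problem -/
lemma part_waring (k t s : ℕ) (hk : 1 ≤ k) (hl : Local k t) (hs : PosLowerDensity (PowerSums k s)) :
    DensityOne (PowerSums k (s + t + 1)) ∧ ∀ᶠ n in atTop, n ∈ PowerSums k (2 * s + t + 1) := by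
  constructor
  · have h := part_one k t hk hl _ hs
    intro ε hε
    filter_upwards [h ε hε] with n hn
    refine hn.trans ?_
    have h1 := count_mono (A := PowerSums k s + PowerSums k (t + 1))
      (B := PowerSums k (s + t + 1)) (by
        rintro m hm
        rw [Set.mem_add] at hm
        obtain ⟨a, ha, b, hb, rfl⟩ := hm
        show a + b ∈ PowerSums k (s + (t + 1))
        exact sums_add ha hb) n
    exact_mod_cast h1
  · filter_upwards [part_two k t hk hl _ _ hs hs] with n hn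
    rw [Set.mem_add] at hn
    obtain ⟨a, ha, b, hb, rfl⟩ := hn
    rw [Set.mem_add] at ha
    obtain ⟨c, hc, d, hd, rfl⟩ := ha
    have h := sums_add (sums_add hc hd) hb
    have e : s + s + (t + 1) = 2 * s + t + 1 := by ring
    rw [e] at h
    exact h

lemma pos_of_eventually (S : Set ℕ) (h : ∀ᶠ n in atTop, n ∈ S) : PosLowerDensity S := by
  classical
  obtain ⟨n₀, hn₀⟩ := eventually_atTop.1 h
  refine ⟨1 / 2, by norm_num, ?_⟩
  filter_upwards [eventually_ge_atTop (2 * n₀)] with n hn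
  have h1 : n - n₀ ≤ count S n := by
    apply le_count _ _ _ (fun i => n₀ + i)
    · intro i hi
      exact ⟨by show n₀ + i < n; omega, hn₀ _ (by omega)⟩
    · intro i j hij
      have h2 : n₀ + i = n₀ + j := hij
      omega
  have h2 : n ≤ 2 * count S n := by omega
  have h3 : (n : ℝ) ≤ 2 * count S n := by exact_mod_cast h2
  linarith

open Classical in
lemma count_Ico (S : Set ℕ) (u H : ℕ) : (count S (u + H) : ℝ) - count S u =
    (((Finset.Ico u (u + H)).filter (fun n => n ∈ S)).card : ℝ) := by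
  unfold count
  rw [Finset.card_filter, Finset.card_filter, Finset.card_filter,
    ← Finset.sum_range_add_sum_Ico (fun n => if n ∈ S then 1 else 0) (Nat.le_add_right u H)]
  push_cast
  ring

lemma part_spread (k j : ℕ) (θ : ℝ) (hk : 2 ≤ k) (hj : (1 - 1 / (k : ℝ)) ^ j < θ) (S : Set ℕ)
    (h : LocallyDense S θ) : PosLowerDensity (S + PowerSums k j) := by
  obtain ⟨δ, hδ, h⟩ := h
  obtain ⟨Z₀, hZ⟩ := eventually_atTop.1 h
  obtain ⟨n₀, hn⟩ := Pool.Agent.TH940.WD.spread k hk j θ hj S δ hδ Z₀ (by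
    intro Z hZ'
    obtain ⟨u, H, h1, h2, h3⟩ := hZ Z hZ'
    rw [count_Ico] at h3
    exact ⟨u, H, h1, h2, h3⟩)
  refine ⟨δ / 8, by positivity, ?_⟩
  filter_upwards [eventually_ge_atTop n₀] with n hn'
  have h1 := hn n hn'
  rw [sh_eq] at h1
  exact h1

lemma sums_sh (k s j : ℕ) : Pool.Agent.TH940.WD.Sh (PowerSums k s) k j ⊆ PowerSums k (s + j) := by
  rw [sh_eq]
  rintro m hm
  rw [Set.mem_add] at hm
  obtain ⟨a, ha, b, hb, rfl⟩ := hm
  exact sums_add ha hb

lemma pos_mono {A B : Set ℕ} (h : A ⊆ B) (hA : PosLowerDensity A) : PosLowerDensity B := by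
  obtain ⟨δ, hδ, h1⟩ := hA
  refine ⟨δ, hδ, h1.mono fun n hn => hn.trans ?_⟩
  exact_mod_cast count_mono h n

lemma pos_of_local_dense (k s j : ℕ) (θ : ℝ) (hk : 2 ≤ k) (hj : (1 - 1 / (k : ℝ)) ^ j < θ)
    (h : LocallyDense (PowerSums k s) θ) : PosLowerDensity (PowerSums k (s + j)) := by
  have h1 := part_spread k j θ hk hj _ h
  rw [← sh_eq] at h1
  exact pos_mono (sums_sh k s j) h1

lemma part_local (k t s j : ℕ) (θ : ℝ) (hk : 2 ≤ k) (hl : Local k t)
    (hj : (1 - 1 / (k : ℝ)) ^ j < θ) (h : LocallyDense (PowerSums k s) θ) :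
    DensityOne (PowerSums k (s + j + t + 1)) ∧
      ∀ᶠ n in atTop, n ∈ PowerSums k (2 * s + 2 * j + t + 1) := by
  have h1 := part_waring k t (s + j) (by omega) hl (pos_of_local_dense k s j θ hk hj h)
  have e : 2 * (s + j) + t + 1 = 2 * s + 2 * j + t + 1 := by ring
  rw [e] at h1
  exact h1

lemma exp_bound {k : ℕ} (hk : 2 ≤ k) (b : ℕ) :
    (1 - 1 / (k : ℝ)) ^ (b * k) ≤ Real.exp (-(b : ℝ)) := by
  have hkr : (2 : ℝ) ≤ k := by exact_mod_cast hk
  have hk0 : (0 : ℝ) < k := by linarith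
  have h1 : 1 - 1 / (k : ℝ) ≤ Real.exp (-(1 / (k : ℝ))) := Real.one_sub_le_exp_neg _
  have h0 : (0 : ℝ) ≤ 1 - 1 / (k : ℝ) := by
    have : 1 / (k : ℝ) ≤ 1 := by rw [div_le_one hk0]; linarith
    linarith
  refine (pow_le_pow_left₀ h0 h1 _).trans (le_of_eq ?_)
  rw [← Real.exp_nat_mul]
  congr 1
  push_cast
  field_simp

lemma local_dense_of_eventually (S : Set ℕ) (θ : ℝ) (hθ : θ < 1) (h : ∀ᶠ n in atTop, n ∈ S) :
    LocallyDense S θ := by
  classical
  obtain ⟨n₀, hn₀⟩ := eventually_atTop.1 h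
  refine ⟨1, by norm_num, ?_⟩
  have ht := ((tendsto_rpow_atTop (show 0 < 1 - θ by linarith)).comp
    tendsto_natCast_atTop_atTop).eventually_ge_atTop (2 : ℝ)
  filter_upwards [ht, eventually_ge_atTop (2 * n₀ + 2)] with Z hZ hZ2
  have hZ' : (2 : ℝ) ≤ (Z : ℝ) ^ (1 - θ) := hZ
  have hZ0 : (0 : ℝ) < Z := by exact_mod_cast (by omega : 0 < Z)
  refine ⟨Z / 2, Z - Z / 2, ?_, by omega, ?_⟩
  · have h1 : (Z : ℝ) ≤ 2 * ((Z - Z / 2 : ℕ) : ℝ) := by exact_mod_cast (by omega : Z ≤ 2 * (Z - Z / 2))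
    have h2 : (Z : ℝ) ^ θ * 2 ≤ Z := by
      calc (Z : ℝ) ^ θ * 2 ≤ (Z : ℝ) ^ θ * (Z : ℝ) ^ (1 - θ) :=
            mul_le_mul_of_nonneg_left hZ' (by positivity)
        _ = Z := by
            rw [← Real.rpow_add hZ0]
            simp
    linarith
  · rw [count_Ico]
    have h3 : (Finset.Ico (Z / 2) (Z / 2 + (Z - Z / 2))).filter (fun n => n ∈ S) =
        Finset.Ico (Z / 2) (Z / 2 + (Z - Z / 2)) := by
      apply Finset.filter_true_of_mem
      intro n hn
      rw [Finset.mem_Ico] at hn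
      exact hn₀ n (by omega)
    rw [h3, Nat.card_Ico, Nat.add_sub_cancel_left, one_mul]

/-- **Main theorem.** Let `k ≥ 1` (`k ≥ 2` in (5) - (7)).
(1) Let every residue class be a sum of `t` k-th powers. For all `A`, `B` of positive lower
density, `A` plus `t + 1` k-th powers has density one, and every large integer is in `A + B` plus
`t + 1` k-th powers.
(2) Sharp up to one: if `A` plus `t` k-th powers has density one for all `A` of positive lower
density, then every residue class is a sum of `t` k-th powers.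
(3) If in (1) the sums of `s` k-th powers have positive lower density, then the sums of `s + t + 1`
k-th powers have density one and every large integer is a sum of `2 s + t + 1` k-th powers.
(4) One may take `t = 4 k`, and `t = 2 k + 1` if `k` is not `4, 8, 16, …`.
(5) Let `(1 - 1 / k) ^ j < θ`. If `S` has a positive proportion in one interval of length
`≥ Z ^ θ` in `[0, Z)` for each large `Z`, then `S` plus `j` k-th powers has positive lower density.
If `S` is the set of the sums of `s` k-th powers, then (3) holds with `s + j` for `s`.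
(6) If this set `S` has the property in (5) with `s = 47 k - 1`, `θ = 1 / 2`, then every large
integer is a sum of `100 k` k-th powers.
(7) `G(k) = O(k)` if and only if `S` has the property in (5), with a fixed `θ < 1`, for each `k`
with some `s ≤ C k`; the proportion may depend on `k`. -/
theorem result :
    (∀ k t : ℕ, 1 ≤ k → Local k t → ∀ A B : Set ℕ, PosLowerDensity A → PosLowerDensity B →
      DensityOne (A + PowerSums k (t + 1)) ∧
      ∀ᶠ n in atTop, n ∈ A + B + PowerSums k (t + 1)) ∧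
    (∀ k t : ℕ, (∀ A : Set ℕ, PosLowerDensity A → DensityOne (A + PowerSums k t)) → Local k t) ∧
    (∀ k t s : ℕ, 1 ≤ k → Local k t → PosLowerDensity (PowerSums k s) →
      DensityOne (PowerSums k (s + t + 1)) ∧ ∀ᶠ n in atTop, n ∈ PowerSums k (2 * s + t + 1)) ∧
    (∀ k : ℕ, 1 ≤ k → Local k (4 * k) ∧ ((∀ a, 2 ≤ a → k ≠ 2 ^ a) → Local k (2 * k + 1))) ∧
    (∀ (k j : ℕ) (θ : ℝ), 2 ≤ k → (1 - 1 / (k : ℝ)) ^ j < θ →
      (∀ S : Set ℕ, LocallyDense S θ → PosLowerDensity (S + PowerSums k j)) ∧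
      ∀ t s : ℕ, Local k t → LocallyDense (PowerSums k s) θ →
        DensityOne (PowerSums k (s + j + t + 1)) ∧
        ∀ᶠ n in atTop, n ∈ PowerSums k (2 * s + 2 * j + t + 1)) ∧
    (∀ k : ℕ, 2 ≤ k → LocallyDense (PowerSums k (47 * k - 1)) (1 / 2) →
      ∀ᶠ n in atTop, n ∈ PowerSums k (100 * k)) ∧
    (∀ θ : ℝ, 0 < θ → θ < 1 →
      ((∃ C : ℕ, ∀ k : ℕ, 2 ≤ k → ∃ s ≤ C * k, ∀ᶠ n in atTop, n ∈ PowerSums k s) ↔
      ∃ C : ℕ, ∀ k : ℕ, 2 ≤ k → ∃ s ≤ C * k, LocallyDense (PowerSums k s) θ)) := by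
  refine ⟨?_, part_sharp, part_waring, ?_, fun k j θ hk hj => ⟨part_spread k j θ hk hj,
    fun t s hl h => part_local k t s j θ hk hl hj h⟩, ?_, ?_⟩
  · intro k t hk hl A B hA hB
    exact ⟨part_one k t hk hl A hA, part_two k t hk hl A B hA hB⟩
  · intro k hk
    exact ⟨local_four k hk, local_two k hk⟩
  · intro k hk h
    have hj : (1 - 1 / (k : ℝ)) ^ (1 * k) < 1 / 2 := by
      refine lt_of_le_of_lt (exp_bound hk 1) ?_
      rw [Nat.cast_one, Real.exp_neg, inv_lt_comm₀ (Real.exp_pos 1) (by norm_num)]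
      have := Real.exp_one_gt_d9
      norm_num
      linarith
    filter_upwards [(part_local k (4 * k) _ _ (1 / 2) hk (local_four k (by omega)) hj h).2] with n hn
    exact sums_mono (by omega) (by omega) hn
  · intro θ hθ0 hθ1
    constructor
    · rintro ⟨C, hC⟩
      refine ⟨C, fun k hk => ?_⟩
      obtain ⟨s, hs, h⟩ := hC k hk
      exact ⟨s, hs, local_dense_of_eventually _ θ hθ1 h⟩
    · rintro ⟨C, hC⟩
      obtain ⟨b, hb⟩ := exists_nat_gt (-Real.log θ)
      have hb' : Real.exp (-(b : ℝ)) < θ := by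
        rw [← Real.lt_log_iff_exp_lt hθ0]
        linarith
      refine ⟨2 * C + 2 * b + 5, fun k hk => ?_⟩
      obtain ⟨s, hs, h⟩ := hC k hk
      refine ⟨2 * s + 2 * (b * k) + 4 * k + 1, ?_,
        (part_local k (4 * k) s (b * k) θ hk (local_four k (by omega))
          (lt_of_le_of_lt (exp_bound hk b) hb') h).2⟩
      have e : (2 * C + 2 * b + 5) * k = 2 * (C * k) + 2 * (b * k) + 5 * k := by ring
      omega

end Pool.Agent.Results.MP_570bef_nt.LowerDensity
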