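import Pool.Agent.TH882.WM7
import Pool.Agent.TH882.WM9

/-!
Sums of exact k-th powers and a few k-th powers with small random perturbations: a linear number
of summands suffices, and all but an exponentially small share of them are exact k-th powers.
-/

set_option autoImplicit false

namespace Pool.Agent.Results.MP_570bef_nt.MostlyExactPowers

open MeasureTheory Filter

/-- The uniform probability measure on {0, 1, …, ⌊n^θ⌋}. -/
noncomputable def noise (θ : ℝ) (n : ℕ) : Measure ℕ :=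
  (PMF.uniformOfFinset (Finset.range (⌊(n : ℝ) ^ θ⌋₊ + 1)) (by simp)).toMeasure

/-- N is a sum of exactly j k-th powers x^k with x ≥ 1 and exactly a perturbed k-th powers
y^k + m u_y with y ≥ 1. -/
def MixedSum (k m j a : ℕ) (u : ℕ → ℕ) (N : ℕ) : Prop :=
  ∃ x : Fin j → ℕ, ∃ y : Fin a → ℕ, (∀ l, 1 ≤ x l) ∧ (∀ l, 1 ≤ y l) ∧
    N = ∑ l, x l ^ k + ∑ l, (y l ^ k + m * u (y l))

/-- N is congruent modulo m to a sum of s k-th powers. -/
def IsSumMod (k m s N : ℕ) : Prop :=
  ∃ r : Fin s → ℕ, N ≡ ∑ l, r l ^ k [MOD m]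

/-- Let k ≥ 2, m ≥ 1, let j, a be numbers of summands with k (1 - 1/k)^j < a, and let
k (1 - 1/k)^j < θ ≤ k - 1. Let u_n be independent and uniform in {0, …, ⌊n^θ⌋}. Almost surely,
every large N is a sum of j exact k-th powers and a perturbed ones n^k + m u_n if and only if it
is a sum of j + a k-th powers modulo m; if j + a ≥ 4 k this holds for every large N. -/
theorem result (k m j a : ℕ) (θ : ℝ) (hk : 2 ≤ k) (hm : 1 ≤ m)
    (h1 : (k : ℝ) * (1 - 1 / (k : ℝ)) ^ j < θ) (h2 : θ ≤ (k : ℝ) - 1)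
    (h3 : (k : ℝ) * (1 - 1 / (k : ℝ)) ^ j < a) :
    ∀ᵐ u ∂(Measure.infinitePi (noise θ)), ∀ᶠ N in atTop,
      (MixedSum k m j a u N ↔ IsSumMod k m (j + a) N) ∧
      (4 * k ≤ j + a → MixedSum k m j a u N) := by
  have h4 := Pool.Agent.TH882.WM.mixed (j := j) (a := a) hk hm h2 h1 h3
  filter_upwards [h4] with u hu
  filter_upwards [hu] with N hN
  exact ⟨hN, fun h => hN.2 (Pool.Agent.TH882.WM.loc_four (by omega) hm h N)⟩

end Pool.Agent.Results.MP_570bef_nt.MostlyExactPowers
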